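import Pool.Agent.T9h20.TE.Spec

/-!
# Project TE, piece (C): the hybrid argument
-/

set_option autoImplicit false

open MeasureTheory Set Filter Topology
open scoped ENNReal NNReal

namespace Pool.Agent.T9h22.TE

open Pool.Agent.T9h20.TA (mon fn PP upd kap)
open Pool.Agent.T9h20.TE

variable {q t : ℕ}

theorem rho_meas (g : Fin q → Fin t → ℝ) : Measurable (fun v : Fin q → Fin t → ℝ => rho g v) := by
  rw [measurable_pi_iff]
  intro j
  unfold rho
  refine Finset.measurable_sum _ fun s _ => ?_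
  exact ((measurable_pi_apply s).comp (measurable_pi_apply j)).mul_const _

/-- change of the coefficient `s0` of the factor `j` -/
theorem rho_upd (g : Fin q → Fin t → ℝ) (j : Fin q) (s0 : Fin t) (hg : g j s0 = 1)
    (v : Fin q → Fin t → ℝ) (x : ℝ) :
    rho g (upd v j s0 x) = Function.update (rho g v) j (x + (rho g v j - v j s0)) := by
  classical
  funext j'
  by_cases hj : j' = j
  · subst hj
    rw [Function.update_self]
    unfold rho upd
    rw [Function.update_self]
    have h1 : ∀ w : Fin t → ℝ, ∑ s, w s * g j' s = w s0 + ∑ s ∈ Finset.univ.erase s0, w s * g j' s := by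
      intro w
      rw [← Finset.add_sum_erase _ _ (Finset.mem_univ s0), hg, mul_one]
    rw [h1, h1, Function.update_self]
    have h2 : ∑ s ∈ Finset.univ.erase s0, Function.update (v j') s0 x s * g j' s =
        ∑ s ∈ Finset.univ.erase s0, v j' s * g j' s := by
      refine Finset.sum_congr rfl fun s hs => ?_
      rw [Function.update_of_ne (Finset.ne_of_mem_erase hs)]
    rw [h2]
    ring
  · rw [Function.update_of_ne hj]
    unfold rho upd
    rw [Function.update_of_ne hj]

theorem rho_row (g g' : Fin q → Fin t → ℝ) (j : Fin q) (hgg : ∀ j', j' ≠ j → g' j' = g j')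
    (v : Fin q → Fin t → ℝ) (z : ℝ) :
    Function.update (rho g' v) j z = Function.update (rho g v) j z := by
  classical
  funext j'
  by_cases hj : j' = j
  · subst hj
    rw [Function.update_self, Function.update_self]
  · rw [Function.update_of_ne hj, Function.update_of_ne hj]
    unfold rho
    rw [hgg j' hj]

section

variable (μ : Fin q → Fin t → Measure ℝ) [∀ j s, IsProbabilityMeasure (μ j s)]

instance pp_prob : IsProbabilityMeasure (PP μ) := by
  unfold PP
  infer_instance

/-- the probability of an event, one coefficient integrated out -/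
theorem prob_coord (E : Set (Fin q → Fin t → ℝ)) (hE : MeasurableSet E) (j : Fin q) (s : Fin t) :
    PP μ E = ∫⁻ v, (μ j s) {x | upd v j s x ∈ E} ∂(PP μ) := by
  have h1 := Pool.Agent.T9h80.TA.sCoord (Fin q) t μ (E.indicator 1)
    (measurable_one.indicator hE) j s
  rw [lintegral_indicator_one hE] at h1
  rw [h1]
  refine lintegral_congr fun v => ?_
  have hupd : Measurable (fun x : ℝ => upd v j s x) := by
    unfold upd
    exact (measurable_update v).comp (measurable_update (v j))
  have h2 : (fun x => E.indicator (1 : (Fin q → Fin t → ℝ) → ℝ≥0∞) (upd v j s x)) =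
      {x | upd v j s x ∈ E}.indicator 1 := by
    funext x
    rfl
  rw [h2]
  exact lintegral_indicator_one (hupd hE)

/-- the mean of the absolute value of a coefficient -/
theorem mean_coord (A : ℝ≥0) (hA : ∀ j s, ∫⁻ x, ‖x‖ₑ ∂(μ j s) ≤ A) (j : Fin q) (s : Fin t) :
    ∫⁻ v, ‖v j s‖ₑ ∂(PP μ) ≤ A := by
  have hm : Measurable fun v : Fin q → Fin t → ℝ => ‖v j s‖ₑ :=
    ((measurable_pi_apply s).comp (measurable_pi_apply j)).enorm
  rw [Pool.Agent.T9h80.TA.sCoord (Fin q) t μ (fun v => ‖v j s‖ₑ) hm j s]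
  have h1 : ∀ v : Fin q → Fin t → ℝ, ∫⁻ x, ‖(upd v j s x) j s‖ₑ ∂(μ j s) ≤ A := by
    intro v
    have h2 : ∀ x : ℝ, (upd v j s x) j s = x := by
      intro x
      unfold upd
      rw [Function.update_self, Function.update_self]
    simp only [h2]
    exact hA j s
  calc ∫⁻ v, ∫⁻ x, ‖(upd v j s x) j s‖ₑ ∂(μ j s) ∂(PP μ) ≤ ∫⁻ _, (A : ℝ≥0∞) ∂(PP μ) :=
        lintegral_mono h1
    _ = A := by rw [lintegral_const, measure_univ, mul_one]

/-- the mean of the shift -/
theorem mean_shift (A : ℝ≥0) (hA : ∀ j s, ∫⁻ x, ‖x‖ₑ ∂(μ j s) ≤ A) (g g' : Fin q → Fin t → ℝ)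
    (j : Fin q) :
    ∫⁻ v, ‖rho g' v j - rho g v j‖ₑ ∂(PP μ) ≤ A * ∑ s, ‖g' j s - g j s‖ₑ := by
  have h1 : ∀ v : Fin q → Fin t → ℝ, ‖rho g' v j - rho g v j‖ₑ ≤
      ∑ s, ‖v j s‖ₑ * ‖g' j s - g j s‖ₑ := by
    intro v
    have h2 : rho g' v j - rho g v j = ∑ s, v j s * (g' j s - g j s) := by
      unfold rho
      rw [← Finset.sum_sub_distrib]
      refine Finset.sum_congr rfl fun s _ => ?_
      ring
    rw [h2]
    refine (enorm_sum_le _ _).trans (Finset.sum_le_sum fun s _ => ?_)
    rw [enorm_mul]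
  refine (lintegral_mono h1).trans ?_
  rw [lintegral_finsetSum _ fun s _ => ?_]
  · rw [Finset.mul_sum]
    refine Finset.sum_le_sum fun s _ => ?_
    rw [lintegral_mul_const]
    · exact mul_le_mul_left (mean_coord μ A hA j s) _
    · exact ((measurable_pi_apply s).comp (measurable_pi_apply j)).enorm
  · exact (((measurable_pi_apply s).comp (measurable_pi_apply j)).enorm).mul_const _

/-- one row, first part -/
theorem row1 (A : ℝ≥0) (hSh : ∀ j s, Sh (μ j s)) (hA : ∀ j s, ∫⁻ x, ‖x‖ₑ ∂(μ j s) ≤ A)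
    (s0 : Fin q → Fin t) (g g' : Fin q → Fin t → ℝ) (j : Fin q) (hg : g j (s0 j) = 1)
    (hg' : g' j (s0 j) = 1) (hgg : ∀ j', j' ≠ j → g' j' = g j') (D : Set (Fin q → ℝ))
    (hD : MeasurableSet D) :
    PP μ {v | rho g' v ∈ D} ≤ PP μ {v | rho g v ∈ D} + A * ∑ s, ‖g' j s - g j s‖ₑ := by
  rw [prob_coord μ {v | rho g' v ∈ D} (rho_meas g' hD) j (s0 j),
    prob_coord μ {v | rho g v ∈ D} (rho_meas g hD) j (s0 j)]
  have hm : Measurable fun v : Fin q → Fin t → ℝ => ‖rho g' v j - rho g v j‖ₑ :=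
    (((measurable_pi_apply j).comp (rho_meas g')).sub
      ((measurable_pi_apply j).comp (rho_meas g))).enorm
  have h1 : ∀ v : Fin q → Fin t → ℝ,
      (μ j (s0 j)) {x | upd v j (s0 j) x ∈ {v | rho g' v ∈ D}} ≤
        (μ j (s0 j)) {x | upd v j (s0 j) x ∈ {v | rho g v ∈ D}} + ‖rho g' v j - rho g v j‖ₑ := by
    intro v
    have h2 : {x | upd v j (s0 j) x ∈ {v | rho g' v ∈ D}} =
        (fun z => z + (rho g' v j - rho g v j)) ⁻¹' {x | upd v j (s0 j) x ∈ {v | rho g v ∈ D}} := by
      ext x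
      show rho g' (upd v j (s0 j) x) ∈ D ↔
        rho g (upd v j (s0 j) (x + (rho g' v j - rho g v j))) ∈ D
      rw [rho_upd g' j (s0 j) hg', rho_upd g j (s0 j) hg, rho_row g g' j hgg]
      have h3 : x + (rho g' v j - rho g v j) + (rho g v j - v j (s0 j)) =
          x + (rho g' v j - v j (s0 j)) := by ring
      rw [h3]
    rw [h2]
    apply hSh
    have hupd : Measurable (fun x : ℝ => upd v j (s0 j) x) := by
      unfold upd
      exact (measurable_update v).comp (measurable_update (v j))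
    exact hupd (rho_meas g hD)
  refine (lintegral_mono h1).trans ?_
  rw [lintegral_add_right _ hm]
  gcongr
  exact mean_shift μ A hA g g' j

/-- one row, second part -/
theorem row2 (A C : ℝ≥0) (hA : ∀ j s, ∫⁻ x, ‖x‖ₑ ∂(μ j s) ≤ A)
    (s0 : Fin q → Fin t) (g g' : Fin q → Fin t → ℝ) (j : Fin q) (hg : g j (s0 j) = 1)
    (hg' : g' j (s0 j) = 1) (hgg : ∀ j', j' ≠ j → g' j' = g j') (D : Set (Fin q → ℝ))
    (hD : MeasurableSet D)
    (hC : ∀ (r : Fin q → ℝ) (x x' : ℝ),
        (μ j (s0 j)) {z | ¬(Function.update r j (z + x) ∈ D ↔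
          Function.update r j (z + x') ∈ D)} ≤ C * ‖x' - x‖ₑ) :
    PP μ {v | ¬(rho g v ∈ D ↔ rho g' v ∈ D)} ≤ C * A * ∑ s, ‖g' j s - g j s‖ₑ := by
  have hE : MeasurableSet {v : Fin q → Fin t → ℝ | ¬(rho g v ∈ D ↔ rho g' v ∈ D)} := by
    have h1 : MeasurableSet {v : Fin q → Fin t → ℝ | rho g v ∈ D} := rho_meas g hD
    have h2 : MeasurableSet {v : Fin q → Fin t → ℝ | rho g' v ∈ D} := rho_meas g' hD
    have h3 : {v : Fin q → Fin t → ℝ | ¬(rho g v ∈ D ↔ rho g' v ∈ D)} =
        symmDiff {v : Fin q → Fin t → ℝ | rho g v ∈ D} {v : Fin q → Fin t → ℝ | rho g' v ∈ D} := by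
      ext v
      simp only [mem_symmDiff, Set.mem_ofPred_eq]
      tauto
    rw [h3]
    exact h1.symmDiff h2
  rw [prob_coord μ _ hE j (s0 j)]
  have hm : Measurable fun v : Fin q → Fin t → ℝ => ‖rho g' v j - rho g v j‖ₑ :=
    (((measurable_pi_apply j).comp (rho_meas g')).sub
      ((measurable_pi_apply j).comp (rho_meas g))).enorm
  have h1 : ∀ v : Fin q → Fin t → ℝ,
      (μ j (s0 j)) {x | upd v j (s0 j) x ∈ {v | ¬(rho g v ∈ D ↔ rho g' v ∈ D)}} ≤
        C * ‖rho g' v j - rho g v j‖ₑ := by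
    intro v
    have h2 : {x | upd v j (s0 j) x ∈ {v | ¬(rho g v ∈ D ↔ rho g' v ∈ D)}} =
        {z | ¬(Function.update (rho g v) j (z + (rho g v j - v j (s0 j))) ∈ D ↔
          Function.update (rho g v) j (z + (rho g' v j - v j (s0 j))) ∈ D)} := by
      ext x
      show ¬(rho g (upd v j (s0 j) x) ∈ D ↔ rho g' (upd v j (s0 j) x) ∈ D) ↔ _
      rw [rho_upd g' j (s0 j) hg', rho_upd g j (s0 j) hg, rho_row g g' j hgg]
      rfl
    rw [h2]
    refine (hC (rho g v) _ _).trans (le_of_eq ?_)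
    congr 2
    ring
  refine (lintegral_mono h1).trans ?_
  rw [lintegral_const_mul _ hm, mul_assoc]
  gcongr
  exact mean_shift μ A hA g g' j

end

/-- the rows in `J` are changed -/
noncomputable def hyb (g g' : Fin q → Fin t → ℝ) (J : Finset (Fin q)) (j : Fin q) : Fin t → ℝ :=
  if j ∈ J then g' j else g j

theorem sHyb : SHyb := by
  intro q t μ _ A hSh hA s0 g g' hg hg' D hD
  classical
  have hy1 : ∀ J j, hyb g g' J j (s0 j) = 1 := by
    intro J j
    unfold hyb
    split_ifs
    · exact hg' j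
    · exact hg j
  have hins : ∀ (J : Finset (Fin q)) (j : Fin q), j ∉ J → ∀ j', j' ≠ j →
      hyb g g' (insert j J) j' = hyb g g' J j' := by
    intro J j hj j' hj'
    unfold hyb
    simp only [Finset.mem_insert, hj', false_or]
  have hdiff : ∀ (J : Finset (Fin q)) (j : Fin q), j ∉ J →
      ∑ s, ‖hyb g g' (insert j J) j s - hyb g g' J j s‖ₑ = ∑ s, ‖g' j s - g j s‖ₑ := by
    intro J j hj
    unfold hyb
    rw [if_pos (Finset.mem_insert_self _ _), if_neg hj]
  have h0 : hyb g g' ∅ = g := by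
    funext j
    simp [hyb]
  have h1 : hyb g g' Finset.univ = g' := by
    funext j
    simp [hyb]
  constructor
  · have key : ∀ J : Finset (Fin q), PP μ {v | rho (hyb g g' J) v ∈ D} ≤
        PP μ {v | rho g v ∈ D} + A * ∑ j ∈ J, ∑ s, ‖g' j s - g j s‖ₑ := by
      intro J
      induction J using Finset.induction_on with
      | empty => rw [h0]; simp
      | @insert j J hj ih =>
        refine (row1 μ A hSh hA s0 (hyb g g' J) (hyb g g' (insert j J)) j (hy1 _ _) (hy1 _ _)
          (hins J j hj) D hD).trans ?_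
        rw [hdiff J j hj, Finset.sum_insert hj, mul_add]
        calc PP μ {v | rho (hyb g g' J) v ∈ D} + A * ∑ s, ‖g' j s - g j s‖ₑ
            ≤ (PP μ {v | rho g v ∈ D} + A * ∑ j ∈ J, ∑ s, ‖g' j s - g j s‖ₑ) +
              A * ∑ s, ‖g' j s - g j s‖ₑ := by gcongr
          _ = _ := by ring
    have := key Finset.univ
    rwa [h1] at this
  · intro C hC
    have key : ∀ J : Finset (Fin q), PP μ {v | ¬(rho g v ∈ D ↔ rho (hyb g g' J) v ∈ D)} ≤
        C * A * ∑ j ∈ J, ∑ s, ‖g' j s - g j s‖ₑ := by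
      intro J
      induction J using Finset.induction_on with
      | empty => rw [h0]; simp
      | @insert j J hj ih =>
        have h2 := row2 μ A C hA s0 (hyb g g' J) (hyb g g' (insert j J)) j (hy1 _ _) (hy1 _ _)
          (hins J j hj) D hD (hC j)
        rw [hdiff J j hj] at h2
        have h3 : {v | ¬(rho g v ∈ D ↔ rho (hyb g g' (insert j J)) v ∈ D)} ⊆
            {v | ¬(rho g v ∈ D ↔ rho (hyb g g' J) v ∈ D)} ∪
            {v | ¬(rho (hyb g g' J) v ∈ D ↔ rho (hyb g g' (insert j J)) v ∈ D)} := by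
          intro v hv
          simp only [mem_union, Set.mem_ofPred_eq] at hv ⊢
          tauto
        refine (measure_mono h3).trans ((measure_union_le _ _).trans ?_)
        rw [Finset.sum_insert hj, mul_add, add_comm (C * A * ∑ s, ‖g' j s - g j s‖ₑ)]
        exact add_le_add ih h2
    have := key Finset.univ
    rwa [h1] at this

end Pool.Agent.T9h22.TE
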